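import Pool.Agent.H317.GR.StmC

/-!
# GR C2: irreducible representations of nilpotent groups
-/

set_option autoImplicit false

namespace Pool.Agent.H344.GR

open Pool.Agent.H317.GR Module

variable {K V N : Type} [Field K] [AddCommGroup V] [Module K V] [Group N]

/-- Schur's lemma -/
theorem schur [IsAlgClosed K] [FiniteDimensional K V] [Nontrivial V] (ρ : N →* Module.End K V)
    (hirr : ∀ W : Submodule K V, (∀ g, ∀ v ∈ W, ρ g v ∈ W) → W = ⊥ ∨ W = ⊤)
    (T : Module.End K V) (hT : ∀ g, T * ρ g = ρ g * T) : ∃ c : K, T = c • 1 := by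
  obtain ⟨c, hc⟩ := Module.End.exists_eigenvalue T
  refine ⟨c, ?_⟩
  have hW : T.eigenspace c = ⊤ := by
    refine (hirr (T.eigenspace c) fun g v hv => ?_).resolve_left hc
    rw [Module.End.mem_eigenspace_iff] at hv ⊢
    have h1 : T (ρ g v) = ρ g (T v) := congrArg (fun S : Module.End K V => S v) (hT g)
    rw [h1, hv, map_smul]
  ext v
  have hv : v ∈ T.eigenspace c := by
    rw [hW]
    exact Submodule.mem_top
  rw [Module.End.mem_eigenspace_iff] at hv
  rw [hv]
  rfl

theorem rho_inv_mul (ρ : N →* Module.End K V) (g : N) : ρ g⁻¹ * ρ g = 1 := by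
  rw [← map_mul, inv_mul_cancel, map_one]

theorem rho_mul_inv (ρ : N →* Module.End K V) (g : N) : ρ g * ρ g⁻¹ = 1 := by
  rw [← map_mul, mul_inv_cancel, map_one]

/-- the elements which act as scalars -/
def Sc [Nontrivial V] (ρ : N →* Module.End K V) : Subgroup N where
  carrier := {g | ∃ c : K, ρ g = c • 1}
  one_mem' := ⟨1, by rw [map_one, one_smul]⟩
  mul_mem' := by
    rintro a b ⟨c, hc⟩ ⟨c', hc'⟩
    refine ⟨c * c', ?_⟩
    rw [map_mul, hc, hc', smul_mul_smul_comm, one_mul]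
  inv_mem' := by
    rintro a ⟨c, hc⟩
    have h1 := rho_inv_mul ρ a
    rw [hc, mul_smul_comm, mul_one] at h1
    have hc0 : c ≠ 0 := by
      rintro rfl
      rw [zero_smul] at h1
      exact zero_ne_one h1
    refine ⟨c⁻¹, ?_⟩
    rw [← h1, smul_smul, inv_mul_cancel₀ hc0, one_smul]

theorem mem_Sc [Nontrivial V] {ρ : N →* Module.End K V} {g : N} :
    g ∈ Sc ρ ↔ ∃ c : K, ρ g = c • 1 := Iff.rfl

instance sc_normal [Nontrivial V] (ρ : N →* Module.End K V) : (Sc ρ).Normal where
  conj_mem := by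
    rintro g ⟨c, hc⟩ h
    refine ⟨c, ?_⟩
    rw [map_mul, map_mul, hc, mul_smul_comm, mul_one, smul_mul_assoc, rho_mul_inv]

theorem det_ne (ρ : N →* Module.End K V) (g : N) : LinearMap.det (ρ g) ≠ 0 := by
  intro h
  have h1 := congrArg LinearMap.det (rho_inv_mul ρ g)
  rw [map_mul, h, mul_zero, map_one] at h1
  exact zero_ne_one h1

theorem pow_comm {A : Type} [Ring A] [Algebra K A] (a b : A) (c : K) (h : a * b = c • (b * a))
    (m : ℕ) : a ^ m * b = c ^ m • (b * a ^ m) := by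
  induction m with
  | zero => rw [pow_zero, pow_zero, one_mul, mul_one, one_smul]
  | succ m ih =>
    rw [pow_succ', mul_assoc, ih, mul_smul_comm, ← mul_assoc, h, smul_mul_assoc, smul_smul,
      pow_succ, mul_assoc]

theorem irr : S_EXP → S_IRR := by
  intro hE K V N _ _ _ _ _ _ _ _ ρ hirr
  have hd : 0 < finrank K V := finrank_pos
  have hcen : ∀ z ∈ Subgroup.center (N ⧸ Sc ρ), z ^ finrank K V = 1 := by
    intro z hz
    obtain ⟨n, rfl⟩ := QuotientGroup.mk_surjective z
    rw [← QuotientGroup.mk_pow, QuotientGroup.eq_one_iff, mem_Sc]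
    have key : ∀ g, ∃ c : K, c ^ finrank K V = 1 ∧ ρ n * ρ g = c • (ρ g * ρ n) := by
      intro g
      have h1 := (Subgroup.mem_center_iff.1 hz) (QuotientGroup.mk g)
      rw [← QuotientGroup.mk_mul, ← QuotientGroup.mk_mul, QuotientGroup.eq, mem_Sc] at h1
      obtain ⟨c, hc⟩ := h1
      have h2 : ρ n * ρ g = c • (ρ g * ρ n) := by
        have h3 : ρ (g * n) * ρ ((g * n)⁻¹ * (n * g)) = ρ (n * g) := by
          rw [← map_mul, mul_inv_cancel_left]
        rw [hc, mul_smul_comm, mul_one, map_mul, map_mul] at h3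
        exact h3.symm
      refine ⟨c, ?_, h2⟩
      have h4 := congrArg LinearMap.det h2
      rw [LinearMap.det_smul, map_mul, map_mul, mul_comm (LinearMap.det (ρ g))] at h4
      have h5 : LinearMap.det (ρ n) * LinearMap.det (ρ g) ≠ 0 :=
        mul_ne_zero (det_ne ρ n) (det_ne ρ g)
      exact (mul_eq_right₀ h5).1 h4.symm
    have hcom : ∀ g, ρ n ^ finrank K V * ρ g = ρ g * ρ n ^ finrank K V := by
      intro g
      obtain ⟨c, hc, h2⟩ := key g
      rw [pow_comm (ρ n) (ρ g) c h2, hc, one_smul]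
    rw [map_pow]
    exact schur ρ hirr _ hcom
  obtain ⟨E, hE0, hE1⟩ := hE (N ⧸ Sc ρ) (finrank K V) hd hcen
  refine ⟨E, hE0, fun g => ?_⟩
  have h1 := hE1 (QuotientGroup.mk g)
  rw [← QuotientGroup.mk_pow, QuotientGroup.eq_one_iff, mem_Sc, map_pow] at h1
  exact h1

end Pool.Agent.H344.GR
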